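import Mathlib

namespace Pool.Agent.Results.MP_540c93_co.NoFiniteFamily

open SimpleGraph

/-- `S` is an independent dominating set of `G`. -/
def IndepDom {V : Type} (G : SimpleGraph V) (S : Finset V) : Prop :=
  (∀ u ∈ S, ∀ v ∈ S, ¬ G.Adj u v) ∧ ∀ v, v ∉ S → ∃ u ∈ S, G.Adj v u

/-- `S` is an independent dominating set of minimum size. -/
def IsISet {V : Type} (G : SimpleGraph V) (S : Finset V) : Prop :=
  IndepDom G S ∧ ∀ T : Finset V, IndepDom G T → S.card ≤ T.card

/-- The `i`-graph of `G`: vertices are the `i`-sets, adjacent when one token slides along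
an edge of `G`. -/
def iGraph {V : Type} [DecidableEq V] (G : SimpleGraph V) :
    SimpleGraph {S : Finset V // IsISet G S} where
  Adj X Y := ∃ u ∈ X.1, ∃ v, v ∉ X.1 ∧ G.Adj u v ∧ Y.1 = insert v (X.1.erase u)
  symm := ⟨by
    rintro X Y ⟨u, hu, v, hv, huv, h⟩
    refine ⟨v, by simp [h], u, by simp [h, huv.ne], huv.symm, ?_⟩
    ext w
    simp only [h, Finset.mem_insert, Finset.mem_erase]
    constructor
    · intro hw
      by_cases hwu : w = u
      · exact Or.inl hwu
      · exact Or.inr ⟨fun e => hv (e ▸ hw), Or.inr ⟨hwu, hw⟩⟩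
    · rintro (rfl | ⟨h1, h2 | h2⟩)
      · exact hu
      · exact absurd h2 h1
      · exact h2.2⟩
  loopless := ⟨by
    rintro X ⟨u, -, v, hv, -, h⟩
    apply hv
    rw [h]
    simp⟩

/-- `H` is isomorphic to the `i`-graph of some finite graph. -/
def IsIGraph {W : Type} (H : SimpleGraph W) : Prop :=
  ∃ (V : Type) (_ : Fintype V) (_ : DecidableEq V) (G : SimpleGraph V), Nonempty (H ≃g iGraph G)

theorem card_eq {V : Type} {G : SimpleGraph V} (X Y : {S : Finset V // IsISet G S}) :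
    X.1.card = Y.1.card :=
  le_antisymm (X.2.2 _ Y.2.1) (Y.2.2 _ X.2.1)

theorem adj_iff {V : Type} [DecidableEq V] {G : SimpleGraph V}
    (X Y : {S : Finset V // IsISet G S}) : (iGraph G).Adj X Y ↔ (X.1 \ Y.1).card = 1 := by
  constructor
  · rintro ⟨u, hu, v, hv, huv, h⟩
    rw [Finset.card_eq_one]
    refine ⟨u, ?_⟩
    ext w
    simp only [h, Finset.mem_sdiff, Finset.mem_insert, Finset.mem_erase, Finset.mem_singleton]
    constructor
    · rintro ⟨h1, h2⟩
      by_contra h3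
      exact h2 (Or.inr ⟨h3, h1⟩)
    · rintro rfl
      exact ⟨hu, by simp [huv.ne]⟩
  · intro h
    have h' : (Y.1 \ X.1).card = 1 := by
      rw [← h]
      exact Finset.card_sdiff_comm (card_eq Y X)
    obtain ⟨u, hu⟩ := Finset.card_eq_one.1 h
    obtain ⟨v, hv⟩ := Finset.card_eq_one.1 h'
    have hu' : ∀ w, (w ∈ X.1 ∧ w ∉ Y.1) ↔ w = u := fun w => by
      rw [← Finset.mem_sdiff, hu, Finset.mem_singleton]
    have hv' : ∀ w, (w ∈ Y.1 ∧ w ∉ X.1) ↔ w = v := fun w => by
      rw [← Finset.mem_sdiff, hv, Finset.mem_singleton]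
    have u1 := (hu' u).2 rfl
    have v1 := (hv' v).2 rfl
    refine ⟨u, u1.1, v, v1.2, ?_, ?_⟩
    · obtain ⟨w, hw, huw⟩ := Y.2.1.2 u u1.2
      by_cases hwX : w ∈ X.1
      · exact absurd huw (X.2.1.1 u u1.1 w hwX)
      · rw [← (hv' w).1 ⟨hw, hwX⟩]
        exact huw
    · ext w
      simp only [Finset.mem_insert, Finset.mem_erase]
      constructor
      · intro hw
        by_cases hwX : w ∈ X.1
        · exact Or.inr ⟨fun e => u1.2 (e ▸ hw), hwX⟩
        · exact Or.inl ((hv' w).1 ⟨hw, hwX⟩)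
      · rintro (rfl | ⟨h1, h2⟩)
        · exact v1.1
        · by_contra h3
          exact h1 ((hu' w).1 ⟨h2, h3⟩)

theorem two_le {V : Type} [DecidableEq V] {G : SimpleGraph V}
    {X Y : {S : Finset V // IsISet G S}} (h1 : X ≠ Y) (h2 : ¬ (iGraph G).Adj X Y) :
    2 ≤ (X.1 \ Y.1).card := by
  rw [adj_iff] at h2
  have : (X.1 \ Y.1).card ≠ 0 := by
    intro h
    rw [Finset.card_eq_zero, Finset.sdiff_eq_empty_iff_subset] at h
    exact h1 (Subtype.ext (Finset.eq_of_subset_of_card_le h (card_eq Y X).le))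
  omega

theorem tri {V : Type} [DecidableEq V] {A B C : Finset V} (h1 : (A \ B).card = 1)
    (h2 : (B \ C).card = 1) (h3 : 2 ≤ (A \ C).card) : A \ C = (A \ B) ∪ (B \ C) := by
  apply Finset.eq_of_subset_of_card_le
  · intro w hw
    simp only [Finset.mem_sdiff, Finset.mem_union] at *
    by_cases hB : w ∈ B
    · exact Or.inr ⟨hB, hw.2⟩
    · exact Or.inl ⟨hw.1, hB⟩
  · have := Finset.card_union_le (A \ B) (B \ C)
    omega

theorem c4 {V : Type} [DecidableEq V] {G : SimpleGraph V}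
    {A B C D : {S : Finset V // IsISet G S}} (ab : (iGraph G).Adj A B)
    (bc : (iGraph G).Adj B C) (cd : (iGraph G).Adj C D) (da : (iGraph G).Adj D A)
    (ac : A ≠ C) (ac' : ¬ (iGraph G).Adj A C) (db : D ≠ B) (db' : ¬ (iGraph G).Adj D B) :
    A.1 \ B.1 = D.1 \ C.1 := by
  have dc := (adj_iff _ _).1 cd.symm
  rw [adj_iff] at ab bc da
  have t1 := tri ab bc (two_le ac ac')
  have t2 := tri da ab (two_le db db')
  apply Finset.eq_of_subset_of_card_le _ (by omega)
  intro w hw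
  have m1 : w ∈ A.1 \ C.1 := by rw [t1]; exact Finset.mem_union_left _ hw
  have m2 : w ∈ D.1 \ B.1 := by rw [t2]; exact Finset.mem_union_right _ hw
  simp only [Finset.mem_sdiff] at *
  exact ⟨m2.1, m1.2⟩

/-- The Moebius ladder with `n` rungs. -/
def mob (n : ℕ) : SimpleGraph (Fin n × Bool) where
  Adj p q := (p.1 = q.1 ∧ p.2 ≠ q.2) ∨ (p.1.val + 1 = q.1.val ∧ p.2 = q.2) ∨
    (q.1.val + 1 = p.1.val ∧ p.2 = q.2) ∨ (p.1.val = 0 ∧ q.1.val + 1 = n ∧ p.2 ≠ q.2) ∨
    (q.1.val = 0 ∧ p.1.val + 1 = n ∧ p.2 ≠ q.2)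
  symm := ⟨by
    rintro p q (h | h | h | h | h)
    · exact Or.inl ⟨h.1.symm, h.2.symm⟩
    · exact Or.inr (Or.inr (Or.inl ⟨h.1, h.2.symm⟩))
    · exact Or.inr (Or.inl ⟨h.1, h.2.symm⟩)
    · exact Or.inr (Or.inr (Or.inr (Or.inr ⟨h.1, h.2.1, h.2.2.symm⟩)))
    · exact Or.inr (Or.inr (Or.inr (Or.inl ⟨h.1, h.2.1, h.2.2.symm⟩)))⟩
  loopless := ⟨by
    rintro p (h | h | h | h | h) <;> simp at h⟩

theorem mob_not (n : ℕ) (hn : 3 ≤ n) : ¬ IsIGraph (mob n) := by
  rintro ⟨V, _, _, G, ⟨φ⟩⟩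
  have key : ∀ (a b c d : Fin n × Bool), (mob n).Adj a b → (mob n).Adj b c → (mob n).Adj c d →
      (mob n).Adj d a → a ≠ c → ¬ (mob n).Adj a c → d ≠ b → ¬ (mob n).Adj d b →
      (φ a).1 \ (φ b).1 = (φ d).1 \ (φ c).1 := by
    intro a b c d h1 h2 h3 h4 h5 h6 h7 h8
    exact c4 (φ.map_adj_iff.2 h1) (φ.map_adj_iff.2 h2) (φ.map_adj_iff.2 h3) (φ.map_adj_iff.2 h4)
      (fun e => h5 (φ.injective e)) (fun e => h6 (φ.map_adj_iff.1 e))
      (fun e => h7 (φ.injective e)) (fun e => h8 (φ.map_adj_iff.1 e))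
  have ind : ∀ (i : ℕ) (hi : i < n), (φ (⟨0, by omega⟩, false)).1 \ (φ (⟨0, by omega⟩, true)).1
      = (φ (⟨i, hi⟩, false)).1 \ (φ (⟨i, hi⟩, true)).1 := by
    intro i
    induction i with
    | zero => intro hi; rfl
    | succ i ih =>
      intro hi
      rw [ih (by omega)]
      apply key <;> simp [mob] <;> omega
  have last := key (⟨n - 1, by omega⟩, false) (⟨n - 1, by omega⟩, true) (⟨0, by omega⟩, false)
    (⟨0, by omega⟩, true) (by simp [mob]) (by simp [mob]; omega) (by simp [mob])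
    (by simp [mob]; omega) (by simp; omega) (by simp [mob]; omega) (by simp; omega)
    (by simp [mob]; omega)
  rw [← ind (n - 1) (by omega)] at last
  have h1 : (mob n).Adj (⟨0, by omega⟩, false) (⟨0, by omega⟩, true) := by simp [mob]
  have h2 := (adj_iff _ _).1 (φ.map_adj_iff.2 h1)
  obtain ⟨u, hu⟩ := Finset.card_eq_one.1 h2
  have m1 : u ∈ (φ (⟨0, by omega⟩, false)).1 \ (φ (⟨0, by omega⟩, true)).1 := by rw [hu]; simp
  have m2 := m1
  rw [last] at m2
  simp only [Finset.mem_sdiff] at m1 m2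
  exact m1.2 m2.1

/-- The seed graph: complement of a path together with one more edge. -/
def seed (n : ℕ) : SimpleGraph (Fin (n + 1) ⊕ Bool) where
  Adj p q := match p, q with
    | .inl a, .inl b => a ≠ b ∧ a.val + 1 ≠ b.val ∧ b.val + 1 ≠ a.val
    | .inr x, .inr y => x ≠ y
    | _, _ => False
  symm := ⟨by
    rintro (a | a) (b | b) h
    · exact ⟨h.1.symm, h.2.2, h.2.1⟩
    · exact h
    · exact h
    · exact Ne.symm h⟩
  loopless := ⟨by rintro (a | a) h <;> simp at h⟩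

def rung {n : ℕ} (j : Fin n) (b : Bool) : Finset (Fin (n + 1) ⊕ Bool) :=
  {.inl j.castSucc, .inl j.succ, .inr b}

theorem mem_rung_inl {n : ℕ} (j : Fin n) (b : Bool) (a : Fin (n + 1)) :
    Sum.inl a ∈ rung j b ↔ a.val = j.val ∨ a.val = j.val + 1 := by
  simp [rung, Fin.ext_iff]

theorem mem_rung_inr {n : ℕ} (j : Fin n) (b c : Bool) :
    Sum.inr c ∈ rung j b ↔ c = b := by
  simp [rung]

theorem rung_iset {n : ℕ} (j : Fin n) (b : Bool) : IsISet (seed n) (rung j b) := by
  refine ⟨⟨?_, ?_⟩, ?_⟩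
  · rintro (u | u) hu (v | v) hv h
    · rw [mem_rung_inl] at hu hv
      obtain ⟨h1, h2, h3⟩ := h
      rw [Ne, Fin.ext_iff] at h1
      omega
    · exact h
    · exact h
    · rw [mem_rung_inr] at hu hv
      exact h (hu.trans hv.symm)
  · rintro (v | v) hv
    · rw [mem_rung_inl] at hv
      by_cases h : v.val < j.val
      · refine ⟨.inl j.succ, by simp [rung], ?_⟩
        simp only [seed, Ne, Fin.ext_iff, Fin.val_succ]
        omega
      · refine ⟨.inl j.castSucc, by simp [rung], ?_⟩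
        simp only [seed, Ne, Fin.ext_iff, Fin.val_castSucc]
        omega
    · rw [mem_rung_inr] at hv
      exact ⟨.inr b, by simp [rung], hv⟩
  · intro T hT
    have h3 : (rung j b).card ≤ 3 := Finset.card_le_three
    refine h3.trans ?_
    have hn : 0 < n := lt_of_le_of_lt (Nat.zero_le _) j.2
    obtain ⟨c, hc⟩ : ∃ c, Sum.inr c ∈ T := by
      by_cases h : Sum.inr true ∈ T
      · exact ⟨_, h⟩
      · obtain ⟨u | u, hu, h'⟩ := hT.2 _ h
        · exact h'.elim
        · exact ⟨_, hu⟩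
    obtain ⟨a, ha⟩ : ∃ a, Sum.inl a ∈ T := by
      by_cases h : Sum.inl 0 ∈ T
      · exact ⟨_, h⟩
      · obtain ⟨u | u, hu, h'⟩ := hT.2 _ h
        · exact ⟨_, hu⟩
        · exact h'.elim
    obtain ⟨a', ha'⟩ : ∃ a' : Fin (n + 1), a.val + 1 = a'.val ∨ a'.val + 1 = a.val := by
      by_cases h : a.val = 0
      · exact ⟨⟨1, by omega⟩, Or.inl (by simp [h])⟩
      · exact ⟨⟨a.val - 1, by omega⟩, Or.inr (by simp; omega)⟩
    obtain ⟨d, hd, hda⟩ : ∃ d, Sum.inl d ∈ T ∧ d ≠ a := by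
      by_cases h : Sum.inl a' ∈ T
      · exact ⟨a', h, by rw [Ne, Fin.ext_iff]; omega⟩
      · obtain ⟨u | u, hu, h'⟩ := hT.2 _ h
        · refine ⟨u, hu, ?_⟩
          rintro rfl
          obtain ⟨h1, h2, h3⟩ := h'
          omega
        · exact h'.elim
    have : ({Sum.inl a, Sum.inl d, Sum.inr c} : Finset (Fin (n + 1) ⊕ Bool)) ⊆ T := by
      intro w hw
      simp only [Finset.mem_insert, Finset.mem_singleton] at hw
      rcases hw with rfl | rfl | rfl <;> assumption
    refine le_trans (le_of_eq ?_) (Finset.card_le_card this)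
    rw [Finset.card_eq_three.2 ⟨_, _, _, by simpa using hda.symm, by simp, by simp, rfl⟩]

theorem rung_adj {n : ℕ} (j j' : Fin n) (b b' : Bool) :
    (iGraph (seed n)).Adj ⟨rung j b, rung_iset j b⟩ ⟨rung j' b', rung_iset j' b'⟩ ↔
      (j.val = j'.val ∧ b ≠ b') ∨ (j.val + 1 = j'.val ∧ b = b') ∨
        (j'.val + 1 = j.val ∧ b = b') := by
  rw [adj_iff, Finset.card_eq_one]
  constructor
  · rintro ⟨u, hu⟩
    have hu' : ∀ w, (w ∈ rung j b ∧ w ∉ rung j' b') ↔ w = u := fun w => by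
      rw [← Finset.mem_sdiff, hu, Finset.mem_singleton]
    have e1 := hu' (.inl j.castSucc)
    have e2 := hu' (.inl j.succ)
    have e3 := hu' (.inr b)
    have e4 := (hu' u).2 rfl
    rcases u with u | u
    · simp only [mem_rung_inl, mem_rung_inr, Fin.val_castSucc, Fin.val_succ, Sum.inl.injEq,
        Fin.ext_iff, reduceCtorEq, true_or, or_true, true_and, iff_false, not_not] at e1 e2 e3 e4
      simp only [e3, ne_eq, not_true, and_false, and_true, false_or]
      have f1 := e1.1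
      have f2 := e2.1
      omega
    · simp only [mem_rung_inl, mem_rung_inr, Fin.val_castSucc, Fin.val_succ, Sum.inr.injEq,
        reduceCtorEq, true_or, or_true, true_and, iff_false, not_not] at e1 e2 e3 e4
      have : b ≠ b' := fun e => e4.2 (e4.1.trans e)
      left
      refine ⟨?_, this⟩
      omega
  · rintro (⟨h1, h2⟩ | ⟨h1, h2⟩ | ⟨h1, h2⟩)
    · refine ⟨.inr b, ?_⟩
      ext (w | w)
      · simp only [Finset.mem_sdiff, mem_rung_inl, Finset.mem_singleton, reduceCtorEq, iff_false]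
        omega
      · simp only [Finset.mem_sdiff, mem_rung_inr, Finset.mem_singleton, Sum.inr.injEq]
        constructor
        · exact fun h => h.1
        · rintro rfl
          exact ⟨rfl, h2⟩
    · refine ⟨.inl j.castSucc, ?_⟩
      ext (w | w)
      · simp only [Finset.mem_sdiff, mem_rung_inl, Finset.mem_singleton, Sum.inl.injEq,
          Fin.ext_iff, Fin.val_castSucc]
        omega
      · simp [mem_rung_inr, h2]
    · refine ⟨.inl j.succ, ?_⟩
      ext (w | w)
      · simp only [Finset.mem_sdiff, mem_rung_inl, Finset.mem_singleton, Sum.inl.injEq,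
          Fin.ext_iff, Fin.val_succ]
        omega
      · simp [mem_rung_inr, h2]

theorem rung_inj {n : ℕ} {j j' : Fin n} {b b' : Bool} (h : rung j b = rung j' b') :
    j.val = j'.val ∧ b = b' := by
  have e1 := mem_rung_inl j b j.castSucc
  have e2 := mem_rung_inl j b j.succ
  have e3 := mem_rung_inr j b b
  rw [h, mem_rung_inl] at e1 e2
  rw [h, mem_rung_inr] at e3
  simp only [Fin.val_castSucc, Fin.val_succ, true_or, or_true, iff_true] at e1 e2
  exact ⟨by omega, by simpa using e3⟩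

theorem result : ¬ ∃ F : Set (Σ k : ℕ, SimpleGraph (Fin k)), F.Finite ∧
    ∀ (W : Type) [Fintype W] [Nonempty W] (H : SimpleGraph W),
      IsIGraph H ↔ ∀ p ∈ F, ¬ Nonempty (p.2 ↪g H) := by
  classical
  rintro ⟨F, hF, h⟩
  obtain ⟨N, hN⟩ := (hF.image (fun p => p.1)).bddAbove
  set n := N + 3 with hn
  have : Nonempty (Fin n × Bool) := ⟨(⟨0, by omega⟩, true)⟩
  have h1 := mob_not n (by omega)
  rw [h] at h1
  push Not at h1
  obtain ⟨⟨k, P⟩, hp, ⟨φ⟩⟩ := h1
  have hk : k ≤ N := hN ⟨_, hp, rfl⟩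
  have hns : ¬ Function.Surjective (fun a => (φ a).1) := by
    intro hs
    have := Fintype.card_le_of_surjective _ hs
    simp at this
    omega
  unfold Function.Surjective at hns
  push Not at hns
  obtain ⟨z, hz⟩ := hns
  have hz' : ∀ a, (φ a).1.val ≠ z.val := fun a e => hz a (Fin.ext e)
  have : Nonempty {S : Finset (Fin (n + 1) ⊕ Bool) // IsISet (seed n) S} :=
    ⟨⟨_, rung_iset ⟨0, by omega⟩ true⟩⟩
  have h2 : IsIGraph (iGraph (seed n)) := ⟨_, inferInstance, inferInstance, _, ⟨Iso.refl⟩⟩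
  rw [h] at h2
  apply h2 _ hp
  let pos : Fin n → Fin n := fun i =>
    if hi : z.val < i.val then ⟨i.val - z.val - 1, by omega⟩
    else ⟨i.val + n - z.val - 1, by omega⟩
  let fl : Fin n × Bool → Bool := fun p => if z.val < p.1.val then p.2 else !p.2
  refine ⟨⟨⟨fun a => ⟨rung (pos (φ a).1) (fl (φ a)), rung_iset _ _⟩, ?_⟩, ?_⟩⟩
  · intro a b hab
    obtain ⟨e1, e2⟩ := rung_inj (congrArg Subtype.val hab)
    apply φ.injective
    have ha := hz' a
    have hb := hz' b
    generalize φ a = x at *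
    generalize φ b = y at *
    obtain ⟨⟨x, hx⟩, bx⟩ := x
    obtain ⟨⟨y, hy⟩, bY⟩ := y
    have hz2 := z.2
    simp only [pos, fl] at e1 e2 ha hb
    by_cases c1 : z.val < x <;> by_cases c2 : z.val < y <;> simp [c1, c2] at e1 e2 ⊢ <;>
      first | omega | exact ⟨by omega, e2⟩
  · intro a b
    simp only [Function.Embedding.coeFn_mk]
    rw [rung_adj, ← φ.map_adj_iff]
    have ha := hz' a
    have hb := hz' b
    generalize φ a = x at *
    generalize φ b = y at *
    obtain ⟨⟨x, hx⟩, bx⟩ := x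
    obtain ⟨⟨y, hy⟩, bY⟩ := y
    have hz2 := z.2
    simp only [pos, fl, mob] at ha hb ⊢
    by_cases c1 : z.val < x <;> by_cases c2 : z.val < y <;> cases bx <;> cases bY <;>
      simp [c1, c2] <;> omega

end Pool.Agent.Results.MP_540c93_co.NoFiniteFamily
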